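import Pool.Agent.helper73.AD.Basic

/-!
SL: slopes of the length functions (project ad, MP_a29257_gt).
-/

namespace Pool.Agent.helper73.AD

open scoped BigOperators Topology

section
variable {J : Type} [Fintype J]

theorem SL_hs_add {f g : PS J → ℝ} {z : PS J} (hf : ContDiffAt ℝ 2 f z) (hg : ContDiffAt ℝ 2 g z)
    (x y : PS J) : hs (fun u => f u + g u) z x y = hs f z x y + hs g z x y := by
  have e : (fun u => fderiv ℝ (fun v => f v + g v) u) =ᶠ[𝓝 z]
      fun u => fderiv ℝ f u + fderiv ℝ g u := by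
    filter_upwards [hf.eventually (by simp), hg.eventually (by simp)] with u hu hv
    exact fderiv_fun_add (hu.differentiableAt (by simp)) (hv.differentiableAt (by simp))
  have df : DifferentiableAt ℝ (fun u => fderiv ℝ f u) z :=
    (hf.fderiv_right (m := 1) (by norm_num)).differentiableAt (by simp)
  have dg : DifferentiableAt ℝ (fun u => fderiv ℝ g u) z :=
    (hg.fderiv_right (m := 1) (by norm_num)).differentiableAt (by simp)
  unfold hs
  rw [e.fderiv_eq, fderiv_fun_add df dg]
  rfl

/-- twice continuously differentiable and convex on the cone -/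
def SL_good (f : PS J → ℝ) : Prop :=
  ContDiffOn ℝ 2 f (Cone J) ∧ ∀ z ∈ Cone J, ∀ x : PS J, 0 ≤ hs f z x x

theorem SL_good_at {f : PS J → ℝ} (hf : SL_good f) {z : PS J} (hz : z ∈ Cone J) :
    ContDiffAt ℝ 2 f z := hf.1.contDiffAt (Cone_mem_nhds hz)

theorem SL_good_add {f g : PS J → ℝ} (hf : SL_good f) (hg : SL_good g) :
    SL_good (fun u => f u + g u) := by
  refine ⟨hf.1.add hg.1, fun z hz x => ?_⟩
  rw [SL_hs_add (SL_good_at hf hz) (SL_good_at hg hz)]
  exact add_nonneg (hf.2 z hz x) (hg.2 z hz x)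

theorem SL_good_lin (l : PS J →L[ℝ] ℝ) : SL_good (fun u => l u) := by
  refine ⟨l.contDiff.contDiffOn, fun z hz x => ?_⟩
  have : (fun u : PS J => fderiv ℝ (fun v : PS J => l v) u) = fun _ => l := by
    funext u; exact l.fderiv
  unfold hs
  rw [this]
  simp

theorem SL_good_sum {ι : Type} (s : Finset ι) {f : ι → PS J → ℝ} (hf : ∀ i, SL_good (f i)) :
    SL_good (fun u => ∑ i ∈ s, f i u) := by
  classical
  induction s using Finset.induction_on with
  | empty => simpa using SL_good_lin (0 : PS J →L[ℝ] ℝ)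
  | insert a s ha ih =>
    simp only [Finset.sum_insert ha]
    exact SL_good_add (hf a) ih

omit [Fintype J] in
theorem SL_ray {z u : PS J} (hz : z ∈ Cone J) (hu : ∀ j, 0 ≤ u.1 j) {s : ℝ} (hs : 0 ≤ s) :
    z + s • u ∈ Cone J := by
  intro j
  have h1 := hz j
  have h2 := mul_nonneg hs (hu j)
  simp only [Prod.fst_add, Prod.smul_fst, Pi.add_apply, Pi.smul_apply, smul_eq_mul]
  linarith

/-- a convex function with slope at most -τ at infinity has slope at most -τ -/
theorem SL_slope {f : PS J → ℝ} (hf : SL_good f) {z u : PS J} (hz : z ∈ Cone J)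
    (hu : ∀ j, 0 ≤ u.1 j) {τ D : ℝ} (hD : ∀ s : ℝ, 0 ≤ s → f (z + s • u) ≤ D - τ * s) :
    fderiv ℝ f z u ≤ -τ := by
  have hline : ∀ s : ℝ, HasDerivAt (fun s : ℝ => z + s • u) u s := fun s => by
    simpa using ((hasDerivAt_id s).smul_const u).const_add z
  have hφ : ∀ s : ℝ, 0 ≤ s → HasDerivAt (fun s : ℝ => f (z + s • u)) (fderiv ℝ f (z + s • u) u) s := by
    intro s hs
    have h1 := ((SL_good_at hf (SL_ray hz hu hs)).differentiableAt (by simp)).hasFDerivAt
    exact h1.comp_hasDerivAt s (hline s)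
  have hψ : ∀ s : ℝ, 0 ≤ s → HasDerivAt (fun s : ℝ => fderiv ℝ f (z + s • u) u)
      (hs f (z + s • u) u u) s := by
    intro s hs'
    have h0 := ((SL_good_at hf (SL_ray hz hu hs')).fderiv_right (m := 1)
      (by norm_num)).differentiableAt (by simp)
    have h1 := h0.hasFDerivAt.comp_hasDerivAt s (hline s)
    exact ((ContinuousLinearMap.apply ℝ ℝ u).hasFDerivAt.comp_hasDerivAt s h1)
  have hmono : MonotoneOn (fun s : ℝ => fderiv ℝ f (z + s • u) u) (Set.Ici 0) := by
    refine monotoneOn_of_deriv_nonneg (convex_Ici 0)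
      (fun s hs' => (hψ s hs').continuousAt.continuousWithinAt)
      (fun s hs' => (hψ s (interior_subset hs')).differentiableAt.differentiableWithinAt)
      (fun s hs' => ?_)
    rw [(hψ s (interior_subset hs')).deriv]
    exact hf.2 _ (SL_ray hz hu (interior_subset hs')) u
  have hχ : MonotoneOn (fun s : ℝ => f (z + s • u) - s * fderiv ℝ f z u) (Set.Ici 0) := by
    have hd : ∀ s : ℝ, 0 ≤ s → HasDerivAt (fun s : ℝ => f (z + s • u) - s * fderiv ℝ f z u)
        (fderiv ℝ f (z + s • u) u - fderiv ℝ f z u) s := by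
      intro s hs'
      have h2 : HasDerivAt (fun s : ℝ => s * fderiv ℝ f z u) (fderiv ℝ f z u) s := by
        simpa using (hasDerivAt_id s).mul_const (fderiv ℝ f z u)
      exact (hφ s hs').sub h2
    refine monotoneOn_of_deriv_nonneg (convex_Ici 0)
      (fun s hs' => (hd s hs').continuousAt.continuousWithinAt)
      (fun s hs' => (hd s (interior_subset hs')).differentiableAt.differentiableWithinAt)
      (fun s hs' => ?_)
    rw [(hd s (interior_subset hs')).deriv]
    have := hmono (Set.mem_Ici.mpr (le_refl (0 : ℝ))) (interior_subset hs')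
      (interior_subset hs')
    simp only [zero_smul, add_zero] at this
    linarith
  have key : ∀ s : ℝ, 0 ≤ s → s * (fderiv ℝ f z u + τ) ≤ D - f z := by
    intro s hs'
    have h1 := hχ (Set.mem_Ici.mpr (le_refl (0 : ℝ))) (Set.mem_Ici.mpr hs') hs'
    simp only [zero_smul, add_zero, zero_mul, sub_zero] at h1
    have h2 := hD s hs'
    nlinarith
  by_contra hcon
  push Not at hcon
  have hpos : 0 < fderiv ℝ f z u + τ := by linarith
  have h0 := key 0 (le_refl _)
  have h1 := key ((D - f z + 1) / (fderiv ℝ f z u + τ)) (div_nonneg (by linarith) hpos.le)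
  rw [div_mul_cancel₀ _ hpos.ne'] at h1
  linarith

end

section
variable {J : Type} [Fintype J] [DecidableEq J]

/-- Lipschitz estimate from a bound of the derivative on the part of the cone where the lengths
of the end cuffs are at least δ -/
theorem SL_lip (hGS : GS_stmt) {δ B : ℝ}
    (hB : ∀ (A : Arc J) (z : PS J), z ∈ Cone J → δ ≤ z.1 A.src → δ ≤ z.1 A.tgt →
      ∀ (s s' : Bool) (x y : PS J),
      |fderiv ℝ (fun z : PS J => A.g s s' z.1) z x| ≤ B * ‖x‖ ∧
      |hs (fun z : PS J => A.g s s' z.1) z x y| ≤ B * ‖x‖ * ‖y‖) (hB0 : 0 ≤ B)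
    (A : Arc J) (s s' : Bool) {x y : PS J} (hx : x ∈ Cone J) (hy : y ∈ Cone J)
    (hx1 : δ ≤ x.1 A.src) (hx2 : δ ≤ x.1 A.tgt) (hy1 : δ ≤ y.1 A.src) (hy2 : δ ≤ y.1 A.tgt) :
    A.g s s' y.1 ≤ A.g s s' x.1 + B * ‖y - x‖ := by
  set Sδ : Set (PS J) := {z | z ∈ Cone J ∧ δ ≤ z.1 A.src ∧ δ ≤ z.1 A.tgt} with hSδ
  have hconv : Convex ℝ Sδ := by
    intro a ha b hb p q hp hq hpq
    refine ⟨convex_Cone ha.1 hb.1 hp hq hpq, ?_, ?_⟩
    · have h1 := mul_le_mul_of_nonneg_left ha.2.1 hp
      have h2 := mul_le_mul_of_nonneg_left hb.2.1 hq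
      simp only [Prod.fst_add, Prod.smul_fst, Pi.add_apply, Pi.smul_apply, smul_eq_mul]
      have e : δ = p * δ + q * δ := by rw [← add_mul, hpq, one_mul]
      linarith
    · have h1 := mul_le_mul_of_nonneg_left ha.2.2 hp
      have h2 := mul_le_mul_of_nonneg_left hb.2.2 hq
      simp only [Prod.fst_add, Prod.smul_fst, Pi.add_apply, Pi.smul_apply, smul_eq_mul]
      have e : δ = p * δ + q * δ := by rw [← add_mul, hpq, one_mul]
      linarith
  have h := hconv.norm_image_sub_le_of_norm_fderiv_le (𝕜 := ℝ)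
    (f := fun z : PS J => A.g s s' z.1) (C := B)
    (fun z hz => (((hGS J).1 A s s').contDiffAt (Cone_mem_nhds hz.1)).differentiableAt (by simp))
    (fun z hz => ContinuousLinearMap.opNorm_le_bound _ hB0 fun v => by
      rw [Real.norm_eq_abs]
      exact (hB A z hz.1 hz.2.1 hz.2.2 s s' v 0).1)
    (show x ∈ Sδ from ⟨hx, hx1, hx2⟩) (show y ∈ Sδ from ⟨hy, hy1, hy2⟩)
  rw [Real.norm_eq_abs] at h
  have h' := (abs_le.mp h).2
  linarith

/-- the linear twist parameter as a continuous linear functional -/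
noncomputable def SL_tL (w : Word J) (i : Fin (w.n + 1)) : PS J →L[ℝ] ℝ :=
  (ContinuousLinearMap.proj (R := ℝ) (w.j i)).comp (ContinuousLinearMap.snd ℝ (J → ℝ) (J → ℝ)) +
    w.c i • (ContinuousLinearMap.proj (R := ℝ) (w.j i)).comp
      (ContinuousLinearMap.fst ℝ (J → ℝ) (J → ℝ))

omit [DecidableEq J] in
theorem SL_tL_apply (w : Word J) (i : Fin (w.n + 1)) (z : PS J) : SL_tL w i z = w.t i z := by
  simp [SL_tL, Word.t]

theorem SL_g_good (hGS : GS_stmt) (hCV : CV_stmt) (A : Arc J) (s s' : Bool) :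
    SL_good (fun z : PS J => A.g s s' z.1) :=
  ⟨(hGS J).1 A s s', fun z hz x => (hCV J A z hz x).1 s s'⟩

theorem SL_L_eq (w : Word J) (σ : Fin (w.n + 1) → Bool) :
    w.L σ = fun z => ∑ i, ((bs (σ i) / 2) • SL_tL w i) z + ∑ i, (w.A i).g (σ i) (σ (i + 1)) z.1 := by
  funext z
  unfold Word.L
  rw [← Finset.sum_add_distrib]
  refine Finset.sum_congr rfl fun i _ => ?_
  rw [ContinuousLinearMap.smul_apply, SL_tL_apply, smul_eq_mul]
  ring

theorem SL_L_good (hGS : GS_stmt) (hCV : CV_stmt) (w : Word J) (σ : Fin (w.n + 1) → Bool) :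
    SL_good (w.L σ) := by
  rw [SL_L_eq]
  exact SL_good_add (SL_good_sum _ fun i => SL_good_lin _)
    (SL_good_sum _ fun i => SL_g_good hGS hCV _ _ _)

theorem SL_fderiv_L (hGS : GS_stmt) (w : Word J) (σ : Fin (w.n + 1) → Bool) {z : PS J}
    (hz : z ∈ Cone J) (u : PS J) :
    fderiv ℝ (w.L σ) z u = ∑ i, (bs (σ i) * w.t i u / 2
      + fderiv ℝ (fun z : PS J => (w.A i).g (σ i) (σ (i + 1)) z.1) z u) := by
  have hg : ∀ i, HasFDerivAt (fun z : PS J => (w.A i).g (σ i) (σ (i + 1)) z.1)
      (fderiv ℝ (fun z : PS J => (w.A i).g (σ i) (σ (i + 1)) z.1) z) z := fun i =>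
    ((((hGS J).1 (w.A i) (σ i) (σ (i + 1))).contDiffAt (Cone_mem_nhds hz)).differentiableAt
      (by simp)).hasFDerivAt
  have h1 : HasFDerivAt (fun z : PS J => ∑ i, ((bs (σ i) / 2) • SL_tL w i) z)
      (∑ i, (bs (σ i) / 2) • SL_tL w i) z :=
    HasFDerivAt.fun_sum fun i _ => ContinuousLinearMap.hasFDerivAt _
  have h2 := h1.fun_add (HasFDerivAt.fun_sum (u := Finset.univ) fun i _ => hg i)
  rw [SL_L_eq, h2.fderiv]
  simp only [ContinuousLinearMap.add_apply, ContinuousLinearMap.sum_apply,
    ContinuousLinearMap.smul_apply, SL_tL_apply, smul_eq_mul]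
  rw [← Finset.sum_add_distrib]
  exact Finset.sum_congr rfl fun i _ => by ring

omit [Fintype J] [DecidableEq J] in
/-- 1 - prod (1 - p) is at most sum p, in exponential form -/
theorem SL_union {ι : Type} (s : Finset ι) (g : ι → ℝ) (hg : ∀ i, 0 ≤ g i) :
    1 - Real.exp (-(2 * ∑ i ∈ s, g i)) ≤ ∑ i ∈ s, (1 - Real.exp (-(2 * g i))) := by
  classical
  induction s using Finset.induction_on with
  | empty => simp
  | insert a s ha ih =>
    rw [Finset.sum_insert ha, Finset.sum_insert ha]
    have e : Real.exp (-(2 * (g a + ∑ i ∈ s, g i)))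
        = Real.exp (-(2 * g a)) * Real.exp (-(2 * ∑ i ∈ s, g i)) := by
      rw [← Real.exp_add]; ring_nf
    rw [e]
    have h1 : Real.exp (-(2 * g a)) ≤ 1 := Real.exp_le_one_iff.mpr (by linarith [hg a])
    have h2 : Real.exp (-(2 * ∑ i ∈ s, g i)) ≤ 1 :=
      Real.exp_le_one_iff.mpr (by linarith [Finset.sum_nonneg fun i (_ : i ∈ s) => hg i])
    nlinarith [Real.exp_pos (-(2 * g a)), Real.exp_pos (-(2 * ∑ i ∈ s, g i))]

theorem SL_of (hGS : GS_stmt) (hDT : DT_stmt) (hCV : CV_stmt) (hBD : BD_stmt) (hBF : BF_stmt)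
    (hQB : QB_stmt) : SL_stmt := by
  intro J _ _ w u τ l C ζ hu heu hτ hζ z hz
  -- lower bound of the lengths
  obtain ⟨δ, hδ0, hδz, hδζ⟩ : ∃ δ : ℝ, 0 < δ ∧ (∀ i, δ ≤ z.1 (w.j i)) ∧
      (∀ s : ℝ, 0 ≤ s → ∀ i, δ ≤ (ζ s).1 (w.j i)) := by
    have h1 : ∃ δ1 : ℝ, 0 < δ1 ∧ ∀ i, δ1 ≤ z.1 (w.j i) := by
      obtain ⟨i0, -, hi0⟩ := Finset.exists_min_image (Finset.univ : Finset (Fin (w.n + 1)))
        (fun i => z.1 (w.j i)) ⟨0, Finset.mem_univ _⟩
      exact ⟨z.1 (w.j i0), hz _, fun i => hi0 i (Finset.mem_univ i)⟩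
    obtain ⟨δ1, hδ1, hδ1z⟩ := h1
    refine ⟨min δ1 (1 / Real.cosh (l / 2) ^ 2), lt_min hδ1 (by positivity),
      fun i => (min_le_left _ _).trans (hδ1z i), fun s hs i => (min_le_right _ _).trans ?_⟩
    have := hQB J w (ζ s) (hζ s hs).1 i
    rwa [(hζ s hs).2.1] at this
  obtain ⟨B, hB0, hB⟩ := hBD J δ hδ0
  have hsrc : ∀ i, (w.A i).src = w.j i := w.src_eq
  have htgt : ∀ i, (w.A i).tgt = w.j (i + 1) := w.tgt_eq
  have hray : ∀ s : ℝ, 0 ≤ s → z + s • u ∈ Cone J := fun s hs => SL_ray hz hu hs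
  have hrayδ : ∀ s : ℝ, 0 ≤ s → ∀ i, δ ≤ (z + s • u).1 (w.j i) := by
    intro s hs i
    have h2 := mul_nonneg hs (hu (w.j i))
    simp only [Prod.fst_add, Prod.smul_fst, Pi.add_apply, Pi.smul_apply, smul_eq_mul]
    linarith [hδz i]
  have hdist : ∀ s : ℝ, 0 ≤ s → ‖(z + s • u) - ζ s‖ ≤ ‖z‖ + C := by
    intro s hs
    have h1 := (hζ s hs).2.2.1
    have e : (z + s • u) - ζ s = z - (ζ s - s • u) := by abel
    rw [e]
    exact (norm_sub_le _ _).trans (by linarith)
  -- Lipschitz comparison for the logarithms of the entries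
  have hgl : ∀ s : ℝ, 0 ≤ s → ∀ i (a b : Bool),
      (w.A i).g a b (z + s • u).1 ≤ (w.A i).g a b (ζ s).1 + B * (‖z‖ + C) := by
    intro s hs i a b
    have h := SL_lip hGS hB hB0 (w.A i) a b (hζ s hs).1 (hray s hs)
      (by rw [hsrc]; exact hδζ s hs i) (by rw [htgt]; exact hδζ s hs (i + 1))
      (by rw [hsrc]; exact hrayδ s hs i) (by rw [htgt]; exact hrayδ s hs (i + 1))
    refine h.trans ?_
    have := mul_le_mul_of_nonneg_left (hdist s hs) hB0
    linarith
  have htl : ∀ s : ℝ, 0 ≤ s → ∀ i (a : Bool),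
      bs a * w.t i (z + s • u) / 2 ≤ bs a * w.t i (ζ s) / 2 + (1 + |w.c i|) * (‖z‖ + C) / 2 := by
    intro s hs i a
    have h1 : |w.t i (z + s • u) - w.t i (ζ s)| ≤ (1 + |w.c i|) * (‖z‖ + C) := by
      have e : w.t i (z + s • u) - w.t i (ζ s)
          = ((z + s • u) - ζ s).2 (w.j i) + w.c i * ((z + s • u) - ζ s).1 (w.j i) := by
        simp only [Word.t, Prod.snd_sub, Prod.fst_sub, Pi.sub_apply]; ring
      rw [e]
      have a1 := abs_snd_le ((z + s • u) - ζ s) (w.j i)
      have a2 := abs_fst_le ((z + s • u) - ζ s) (w.j i)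
      have a3 := hdist s hs
      calc _ ≤ |((z + s • u) - ζ s).2 (w.j i)| + |w.c i * ((z + s • u) - ζ s).1 (w.j i)| :=
            abs_add_le _ _
        _ = |((z + s • u) - ζ s).2 (w.j i)| + |w.c i| * |((z + s • u) - ζ s).1 (w.j i)| := by
            rw [abs_mul]
        _ ≤ (‖z‖ + C) + |w.c i| * (‖z‖ + C) := by
            gcongr
            · exact a1.trans a3
            · exact a2.trans a3
        _ = _ := by ring
    have h2 : |bs a| = 1 := by cases a <;> simp [bs]
    have h3 : bs a * (w.t i (z + s • u) - w.t i (ζ s)) ≤ (1 + |w.c i|) * (‖z‖ + C) := by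
      refine (le_abs_self _).trans ?_
      rw [abs_mul, h2, one_mul]; exact h1
    linarith
  -- constants on the family
  have hbfz := hBF J w z hz
  have hWle : ∀ s : ℝ, 0 ≤ s → ∀ σ, w.Mixed σ → w.W σ (ζ s) ≤ C * Real.exp (-(τ * s)) := by
    intro s hs σ hσ
    obtain ⟨_, _, _, _, _, _, hlP, _⟩ := hBF J w (ζ s) (hζ s hs).1
    have h1 : w.W σ (ζ s) ≤ w.Wm (ζ s) := by
      unfold Word.Wm
      have := Finset.single_le_sum (s := (Finset.univ : Finset (Fin (w.n + 1) → Bool)))
        (f := fun σ => if w.Mixed σ then w.W σ (ζ s) else 0)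
        (fun σ _ => by split_ifs; exacts [(Real.exp_pos _).le, le_refl _]) (Finset.mem_univ σ)
      simpa [hσ] using this
    have h2 : w.Wm (ζ s) ≤ w.eps (ζ s) := by
      unfold Word.eps
      have := Real.one_lt_exp_iff.mpr hlP
      linarith
    exact h1.trans (h2.trans (hζ s hs).2.2.2)
  have hmixslope : ∀ σ, w.Mixed σ → fderiv ℝ (w.L σ) z u ≤ -τ := by
    intro σ hσ
    have hCpos : 0 < C := by
      have h := hWle 0 (le_refl _) σ hσ
      have h' : 0 < w.W σ (ζ 0) := Real.exp_pos _
      simp only [mul_zero, neg_zero, Real.exp_zero, mul_one] at h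
      linarith
    refine SL_slope (SL_L_good hGS hCV w σ) hz hu
      (D := Real.log C + ∑ i : Fin (w.n + 1), ((1 + |w.c i|) * (‖z‖ + C) / 2 + B * (‖z‖ + C)))
      (fun s hs => ?_)
    have h1 : w.L σ (z + s • u) ≤ w.L σ (ζ s)
        + ∑ i : Fin (w.n + 1), ((1 + |w.c i|) * (‖z‖ + C) / 2 + B * (‖z‖ + C)) := by
      unfold Word.L
      rw [← Finset.sum_add_distrib]
      refine Finset.sum_le_sum fun i _ => ?_
      have a := htl s hs i (σ i)
      have b := hgl s hs i (σ i) (σ (i + 1))
      linarith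
    have h2 : w.L σ (ζ s) ≤ Real.log C - τ * s := by
      have h := hWle s hs σ hσ
      have h'' : w.L σ (ζ s) ≤ Real.log (C * Real.exp (-(τ * s))) := by
        rw [← Real.log_exp (w.L σ (ζ s))]
        exact Real.log_le_log (Real.exp_pos _) h
      have e : Real.log (C * Real.exp (-(τ * s))) = Real.log C + -(τ * s) := by
        rw [Real.log_mul hCpos.ne' (Real.exp_pos _).ne', Real.log_exp]
      linarith
    linarith
  -- the products of the off-diagonal entries
  have hrslope : ∀ i, fderiv ℝ (fun z : PS J => (w.A i).g true false z.1) z u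
      + fderiv ℝ (fun z : PS J => (w.A i).g false true z.1) z u ≤ -τ := by
    intro i
    have good := SL_good_add (SL_g_good hGS hCV (w.A i) true false)
      (SL_g_good hGS hCV (w.A i) false true)
    have hrle : ∀ s : ℝ, 0 ≤ s → Real.exp ((w.A i).g true false (ζ s).1
        + (w.A i).g false true (ζ s).1) ≤ (Real.cosh (l / 2) + 1) * C * Real.exp (-(τ * s)) := by
      intro s hs
      obtain ⟨_, _, _, _, _, _, hlP, hlPH, hWm, _, _, _, hr, _⟩ := hBF J w (ζ s) (hζ s hs).1
      rw [(hζ s hs).2.1] at hlPH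
      have h1 := hr i
      have e : Real.exp (2 * w.lP (ζ s)) - 1
          = (Real.exp (w.lP (ζ s)) + 1) * (Real.exp (w.lP (ζ s)) - 1) := by
        rw [two_mul, Real.exp_add]; ring
      have h2 : Real.exp (w.lP (ζ s)) - 1 ≤ C * Real.exp (-(τ * s)) := by
        have h := (hζ s hs).2.2.2
        unfold Word.eps at h
        linarith
      have h3 : 0 ≤ Real.exp (w.lP (ζ s)) - 1 := by
        have := Real.one_lt_exp_iff.mpr hlP
        linarith
      calc _ ≤ _ := h1
        _ = _ := e
        _ ≤ (Real.cosh (l / 2) + 1) * (C * Real.exp (-(τ * s))) := by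
            gcongr
        _ = _ := by ring
    have hC' : 0 < (Real.cosh (l / 2) + 1) * C := by
      have h := hrle 0 (le_refl _)
      have h' := Real.exp_pos ((w.A i).g true false (ζ 0).1 + (w.A i).g false true (ζ 0).1)
      simp only [mul_zero, neg_zero, Real.exp_zero, mul_one] at h
      linarith
    have hs := SL_slope good hz hu (τ := τ)
      (D := Real.log ((Real.cosh (l / 2) + 1) * C) + 2 * (B * (‖z‖ + C))) (fun s hs => ?_)
    · have d1 := (((hGS J).1 (w.A i) true false).contDiffAt (Cone_mem_nhds hz)).differentiableAt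
        (by simp)
      have d2 := (((hGS J).1 (w.A i) false true).contDiffAt (Cone_mem_nhds hz)).differentiableAt
        (by simp)
      rw [fderiv_fun_add d1 d2] at hs
      simpa using hs
    · have a := hgl s hs i true false
      have b := hgl s hs i false true
      have h2 : (w.A i).g true false (ζ s).1 + (w.A i).g false true (ζ s).1
          ≤ Real.log ((Real.cosh (l / 2) + 1) * C) - τ * s := by
        have h := Real.log_le_log (Real.exp_pos _) (hrle s hs)
        rw [Real.log_exp, Real.log_mul hC'.ne' (Real.exp_pos _).ne', Real.log_exp] at h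
        linarith
      linarith
  -- the diagonal entries
  have hDTz := fun i => hDT J (w.A i) z.1 hz
  have hgpos : ∀ i, 0 ≤ (w.A i).g true true z.1 := by
    intro i
    have h := (hDTz i).2
    have h1 : 1 < Real.exp (2 * (w.A i).g true true z.1) := by
      rw [h]; linarith [Real.exp_pos ((w.A i).g true false z.1 + (w.A i).g false true z.1)]
    have := Real.one_lt_exp_iff.mp h1
    linarith
  have hdiag : ∀ i, fderiv ℝ (fun z : PS J => (w.A i).g true true z.1) z u
      ≤ -(τ / 2) * (1 - Real.exp (-(2 * (w.A i).g true true z.1))) := by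
    intro i
    have d0 := ((((hGS J).1 (w.A i) true true).contDiffAt (Cone_mem_nhds hz)).differentiableAt
      (by simp)).hasFDerivAt
    have d1 := ((((hGS J).1 (w.A i) true false).contDiffAt (Cone_mem_nhds hz)).differentiableAt
      (by simp)).hasFDerivAt
    have d2 := ((((hGS J).1 (w.A i) false true).contDiffAt (Cone_mem_nhds hz)).differentiableAt
      (by simp)).hasFDerivAt
    have e1 := (d0.const_mul 2).exp
    have e2 := ((d1.fun_add d2).exp).const_add 1
    have heq : (fun z : PS J => Real.exp (2 * (w.A i).g true true z.1)) =ᶠ[𝓝 z]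
        fun z => 1 + Real.exp ((w.A i).g true false z.1 + (w.A i).g false true z.1) := by
      filter_upwards [Cone_mem_nhds hz] with v hv using (hDT J (w.A i) v.1 hv).2
    have e3 := e1.unique (e2.congr_of_eventuallyEq heq)
    have e4 := congrArg (fun m : PS J →L[ℝ] ℝ => m u) e3
    simp only [ContinuousLinearMap.smul_apply, ContinuousLinearMap.add_apply, smul_eq_mul] at e4
    have h := (hDTz i).2
    set G := (w.A i).g true true z.1
    set R := Real.exp ((w.A i).g true false z.1 + (w.A i).g false true z.1) with hR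
    set G' := fderiv ℝ (fun z : PS J => (w.A i).g true true z.1) z u
    have hRpos : 0 < R := Real.exp_pos _
    have hs := hrslope i
    set R' := fderiv ℝ (fun z : PS J => (w.A i).g true false z.1) z u
      + fderiv ℝ (fun z : PS J => (w.A i).g false true z.1) z u with hR'
    have hinv : Real.exp (-(2 * G)) = 1 / (1 + R) := by
      rw [Real.exp_neg, h, one_div]
    rw [hinv]
    have hval : G' = R * R' / (2 * (1 + R)) := by
      rw [eq_div_iff (by positivity)]
      rw [h] at e4
      linarith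
    have hval2 : 1 - 1 / (1 + R) = R / (1 + R) := by
      field_simp; ring
    rw [hval, hval2]
    have hge : 0 ≤ R / (2 * (1 + R)) := by positivity
    calc R * R' / (2 * (1 + R)) = R / (2 * (1 + R)) * R' := by ring
      _ ≤ R / (2 * (1 + R)) * (-τ) := mul_le_mul_of_nonneg_left hs hge
      _ = -(τ / 2) * (R / (1 + R)) := by
        field_simp
  have hS : ∑ i, fderiv ℝ (fun z : PS J => (w.A i).g true true z.1) z u
      ≤ -(τ / 2) * (1 - Real.exp (-(2 * w.lP z))) := by
    calc _ ≤ ∑ i, -(τ / 2) * (1 - Real.exp (-(2 * (w.A i).g true true z.1))) :=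
          Finset.sum_le_sum fun i _ => hdiag i
      _ = -(τ / 2) * ∑ i, (1 - Real.exp (-(2 * (w.A i).g true true z.1))) := by
          rw [Finset.mul_sum]
      _ ≤ -(τ / 2) * (1 - Real.exp (-(2 * w.lP z))) := by
          have h := SL_union (Finset.univ : Finset (Fin (w.n + 1)))
            (fun i => (w.A i).g true true z.1) hgpos
          have h' : w.lP z = ∑ i, (w.A i).g true true z.1 := rfl
          rw [h']
          nlinarith
  -- the twist part vanishes
  have hYu : ∑ i, w.t i u = 0 := by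
    have h1 := (hBF J w z hz).2.2.2.2.2.2.2.2.2.2.2.2.2
    have hz' : z + u ∈ Cone J := by simpa using SL_ray hz hu (zero_le_one (α := ℝ))
    have h2 := (hBF J w (z + u) hz').2.2.2.2.2.2.2.2.2.2.2.2.2
    rw [om_add_right, h1, heu] at h2
    have e : w.Y (z + u) = w.Y z + ∑ i, w.t i u := by
      unfold Word.Y
      rw [← Finset.sum_add_distrib]
      refine Finset.sum_congr rfl fun i _ => ?_
      simp only [Word.t, Prod.snd_add, Prod.fst_add, Pi.add_apply]; ring
    rw [e] at h2
    linarith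
  have hLt : fderiv ℝ (w.L (fun _ => true)) z u
      = ∑ i, fderiv ℝ (fun z : PS J => (w.A i).g true true z.1) z u := by
    rw [SL_fderiv_L hGS w _ hz u, Finset.sum_add_distrib]
    have : ∑ i, bs true * w.t i u / 2 = 0 := by
      rw [← Finset.sum_div, ← Finset.mul_sum, hYu]; simp
    rw [this, zero_add]
  have hLf : fderiv ℝ (w.L (fun _ => false)) z u
      = ∑ i, fderiv ℝ (fun z : PS J => (w.A i).g true true z.1) z u := by
    rw [SL_fderiv_L hGS w _ hz u, Finset.sum_add_distrib]
    have : ∑ i, bs false * w.t i u / 2 = 0 := by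
      rw [← Finset.sum_div, ← Finset.mul_sum, hYu]; simp
    rw [this, zero_add]
    refine Finset.sum_congr rfl fun i _ => ?_
    have heq : (fun z : PS J => (w.A i).g false false z.1) =ᶠ[𝓝 z]
        fun z => (w.A i).g true true z.1 := by
      filter_upwards [Cone_mem_nhds hz] with v hv using (hDT J (w.A i) v.1 hv).1
    rw [heq.fderiv_eq]
  -- derivative of the trace
  have hL' : ∀ σ, HasFDerivAt (w.L σ) (fderiv ℝ (w.L σ) z) z := fun σ =>
    ((((hGS J).2.1 w σ).contDiffAt (Cone_mem_nhds hz)).differentiableAt (by simp)).hasFDerivAt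
  have hF' : HasFDerivAt w.F (∑ σ : Fin (w.n + 1) → Bool, w.W σ z • fderiv ℝ (w.L σ) z) z :=
    HasFDerivAt.fun_sum fun σ _ => (hL' σ).exp
  have hdF : fderiv ℝ w.F z u = ∑ σ : Fin (w.n + 1) → Bool, w.W σ z * fderiv ℝ (w.L σ) z u := by
    rw [hF'.fderiv]
    simp [ContinuousLinearMap.sum_apply]
  obtain ⟨hF2, hH0, hFH, hWt, hWf, hFd, hlP, hlPH, hWm0, _⟩ := hbfz
  set Sd := ∑ i, fderiv ℝ (fun z : PS J => (w.A i).g true true z.1) z u with hSd
  have hdFle : fderiv ℝ w.F z u ≤ -τ * w.eps z := by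
    rw [hdF]
    have hne : (fun _ => true : Fin (w.n + 1) → Bool) ≠ fun _ => false := by
      intro h; exact absurd (congrFun h 0) (by simp)
    have hterm : ∀ σ : Fin (w.n + 1) → Bool, w.W σ z * fderiv ℝ (w.L σ) z u
        ≤ -τ * (if w.Mixed σ then w.W σ z else 0)
          + ((if σ = (fun _ => true) then w.W σ z * Sd else 0)
            + (if σ = (fun _ => false) then w.W σ z * Sd else 0)) := by
      intro σ
      by_cases hm : w.Mixed σ
      · have n1 : σ ≠ (fun _ => true) := by
          rintro rfl; obtain ⟨_, ⟨i, hi⟩⟩ := hm; simp at hi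
        have n2 : σ ≠ (fun _ => false) := by
          rintro rfl; obtain ⟨⟨i, hi⟩, _⟩ := hm; simp at hi
        rw [if_pos hm, if_neg n1, if_neg n2]
        have := mul_le_mul_of_nonneg_left (hmixslope σ hm) (Real.exp_pos (w.L σ z)).le
        unfold Word.W
        linarith
      · rw [if_neg hm]
        by_cases h0 : σ 0 = true
        · have : σ = fun _ => true := by
            funext i
            by_contra hi
            exact hm ⟨⟨0, h0⟩, ⟨i, by simpa using hi⟩⟩
          subst this
          rw [if_pos rfl, if_neg hne, hLt]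
          simp
        · have : σ = fun _ => false := by
            funext i
            by_contra hi
            exact hm ⟨⟨i, by simpa using hi⟩, ⟨0, by simpa using h0⟩⟩
          subst this
          rw [if_pos rfl, if_neg hne.symm, hLf]
          simp
    refine (Finset.sum_le_sum fun σ _ => hterm σ).trans ?_
    rw [Finset.sum_add_distrib, Finset.sum_add_distrib, ← Finset.mul_sum,
      Finset.sum_ite_eq' Finset.univ _ _, Finset.sum_ite_eq' Finset.univ _ _]
    simp only [Finset.mem_univ, if_true]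
    have hWsum : w.W (fun _ => true) z + w.W (fun _ => false) z
        = 2 * Real.exp (w.lP z) * Real.cosh (w.Y z / 2) := by
      rw [hWt, hWf, Real.exp_add, Real.exp_add, Real.cosh_eq]; ring
    have hc1 := Real.one_le_cosh (w.Y z / 2)
    have hep := Real.exp_pos (w.lP z)
    have hSneg : Sd ≤ 0 := by
      have : Real.exp (-(2 * w.lP z)) ≤ 1 := Real.exp_le_one_iff.mpr (by linarith)
      nlinarith
    have h1 : (w.W (fun _ => true) z + w.W (fun _ => false) z) * Sd
        ≤ 2 * Real.exp (w.lP z) * Sd := by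
      rw [hWsum]
      nlinarith [mul_nonneg hep.le (sub_nonneg.mpr hc1)]
    have h2 : 2 * Real.exp (w.lP z) * Sd ≤ -τ * (Real.exp (w.lP z) - Real.exp (-(w.lP z))) := by
      have e : Real.exp (w.lP z) * Real.exp (-(2 * w.lP z)) = Real.exp (-(w.lP z)) := by
        rw [← Real.exp_add]; ring_nf
      have := mul_le_mul_of_nonneg_left hS (by positivity : 0 ≤ 2 * Real.exp (w.lP z))
      calc _ ≤ _ := this
        _ = -τ * (Real.exp (w.lP z) - Real.exp (w.lP z) * Real.exp (-(2 * w.lP z))) := by ring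
        _ = _ := by rw [e]
    have h3 : Real.exp (-(w.lP z)) ≤ 1 := Real.exp_le_one_iff.mpr (by linarith)
    have h4 : -τ * (Real.exp (w.lP z) - Real.exp (-(w.lP z)))
        ≤ -τ * (Real.exp (w.lP z) - 1) := by nlinarith
    unfold Word.eps Word.Wm
    linarith
  -- derivative of the length
  have hsh : 0 < Real.sinh (w.H z / 2) := Real.sinh_pos_iff.mpr (by linarith)
  have hHd : fderiv ℝ w.F z u = Real.sinh (w.H z / 2) * fderiv ℝ w.H z u := by
    have hH' := ((((hGS J).2.2.2.2 w (fun v hv => (hBF J w v hv).1)).contDiffAt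
      (Cone_mem_nhds hz)).differentiableAt (by simp)).hasFDerivAt
    have h1 := ((hH'.mul_const (1 / 2)).cosh).const_mul 2
    have heq : w.F =ᶠ[𝓝 z] fun v => 2 * Real.cosh (w.H v * (1 / 2)) := by
      filter_upwards [Cone_mem_nhds hz] with v hv
      have := (hBF J w v hv).2.2.1
      rw [← this]; ring_nf
    rw [(h1.congr_of_eventuallyEq heq).fderiv]
    simp only [ContinuousLinearMap.smul_apply, smul_eq_mul]
    have : w.H z * (1 / 2) = w.H z / 2 := by ring
    rw [this]; ring
  have heps : 0 ≤ w.eps z := by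
    unfold Word.eps
    have := Real.one_lt_exp_iff.mpr hlP
    linarith
  have hch := Real.one_le_cosh (w.H z / 2)
  have h1 : fderiv ℝ w.H z u ≤ -(τ * w.eps z / Real.sinh (w.H z / 2)) := by
    rw [← neg_div, le_div_iff₀ hsh]
    rw [hHd] at hdFle
    linarith
  refine h1.trans (neg_le_neg ?_)
  rw [mul_comm (Real.cosh (w.H z / 2) ^ 2), ← div_div]
  refine div_le_self (by positivity) ?_
  nlinarith

end

end Pool.Agent.helper73.AD
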