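import Pool.Agent.helper73.AD.Basic

/-!
FI: final uniqueness for abstract systems (project ad, MP_a29257_gt).
-/

namespace Pool.Agent.helper73.AD

open scoped BigOperators Topology

variable {J K : Type} [Fintype J] [DecidableEq J] [Fintype K] [DecidableEq K]

omit [DecidableEq J] in
theorem FI_om_deriv {f g : ℝ → PS J} {f' g' : PS J} {t : ℝ}
    (hf : HasDerivAt f f' t) (hg : HasDerivAt g g' t) :
    HasDerivAt (fun s => om (f s) (g s)) (om f' (g t) + om (f t) g') t := by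
  have hf1 : ∀ j, HasDerivAt (fun s => (f s).1 j) (f'.1 j) t := fun j =>
    ((ContinuousLinearMap.proj (R := ℝ) j).comp
      (ContinuousLinearMap.fst ℝ (J → ℝ) (J → ℝ))).hasFDerivAt.comp_hasDerivAt t hf
  have hf2 : ∀ j, HasDerivAt (fun s => (f s).2 j) (f'.2 j) t := fun j =>
    ((ContinuousLinearMap.proj (R := ℝ) j).comp
      (ContinuousLinearMap.snd ℝ (J → ℝ) (J → ℝ))).hasFDerivAt.comp_hasDerivAt t hf
  have hg1 : ∀ j, HasDerivAt (fun s => (g s).1 j) (g'.1 j) t := fun j =>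
    ((ContinuousLinearMap.proj (R := ℝ) j).comp
      (ContinuousLinearMap.fst ℝ (J → ℝ) (J → ℝ))).hasFDerivAt.comp_hasDerivAt t hg
  have hg2 : ∀ j, HasDerivAt (fun s => (g s).2 j) (g'.2 j) t := fun j =>
    ((ContinuousLinearMap.proj (R := ℝ) j).comp
      (ContinuousLinearMap.snd ℝ (J → ℝ) (J → ℝ))).hasFDerivAt.comp_hasDerivAt t hg
  have h := HasDerivAt.fun_sum (u := (Finset.univ : Finset J))
    (A := fun j s => (f s).2 j * (g s).1 j - (f s).1 j * (g s).2 j)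
    (A' := fun j => (f'.2 j * (g t).1 j + (f t).2 j * g'.1 j)
      - (f'.1 j * (g t).2 j + (f t).1 j * g'.2 j)) (x := t)
    (fun j _ => ((hf2 j).mul (hg1 j)).sub ((hf1 j).mul (hg2 j)))
  have e : om f' (g t) + om (f t) g' = ∑ j, ((f'.2 j * (g t).1 j + (f t).2 j * g'.1 j)
      - (f'.1 j * (g t).2 j + (f t).1 j * g'.2 j)) := by
    unfold om
    rw [← Finset.sum_add_distrib]
    exact Finset.sum_congr rfl fun j _ => by ring
  rw [e]
  exact h

theorem FI_path {S : Sys J K} (Φ : SFam S) {Th : ℝ → K → ℝ} {Th' : K → ℝ} {t : ℝ}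
    (h : HasDerivAt Th Th' t) :
    HasDerivAt (fun s => Φ.Z (Th s)) (S.Xv Th' (Φ.Z (Th t))) t := by
  have h1 := (Φ.dZ (Th t)).comp_hasDerivAt t h
  have e : (∑ k, (ContinuousLinearMap.proj k : (K → ℝ) →L[ℝ] ℝ).smulRight
      (S.X k (Φ.Z (Th t)))) Th' = S.Xv Th' (Φ.Z (Th t)) := by
    simp [Sys.Xv, ContinuousLinearMap.sum_apply]
  rw [e] at h1
  exact h1

theorem FI_prim {S : Sys J K} (Φ : SFam S) {φ : (K → ℝ) → ℝ}
    (hφ : ∀ T, HasFDerivAt φ (∑ k, om (S.X k (Φ.Z T)) (Φ.Z T) •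
      (ContinuousLinearMap.proj k : (K → ℝ) →L[ℝ] ℝ)) T)
    {Th : ℝ → K → ℝ} {Th' : K → ℝ} {t : ℝ} (h : HasDerivAt Th Th' t) :
    HasDerivAt (fun s => φ (Th s)) (om (S.Xv Th' (Φ.Z (Th t))) (Φ.Z (Th t))) t := by
  have h1 := (hφ (Th t)).comp_hasDerivAt t h
  have e : (∑ k, om (S.X k (Φ.Z (Th t))) (Φ.Z (Th t)) •
      (ContinuousLinearMap.proj k : (K → ℝ) →L[ℝ] ℝ)) Th'
      = om (S.Xv Th' (Φ.Z (Th t))) (Φ.Z (Th t)) := by
    unfold Sys.Xv
    rw [om_sum_left]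
    simp only [ContinuousLinearMap.sum_apply, ContinuousLinearMap.smul_apply,
      ContinuousLinearMap.proj_apply, smul_eq_mul, om_smul_left]
    exact Finset.sum_congr rfl fun k _ => by ring
  rw [e] at h1
  exact h1

theorem FI_half (hIE : IE_stmt) (hLG : LG_stmt) (hSC : SC_stmt) (hYB : YB_stmt) (hYP : YP_stmt)
    (S : Sys J K) (Φ Ψ : SFam S) (φ ψ : (K → ℝ) → ℝ)
    (hφ : ∀ T, HasFDerivAt φ (∑ k, om (S.X k (Φ.Z T)) (Φ.Z T) •
      (ContinuousLinearMap.proj k : (K → ℝ) →L[ℝ] ℝ)) T)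
    (hψ : ∀ T, HasFDerivAt ψ (∑ k, om (S.X k (Ψ.Z T)) (Ψ.Z T) •
      (ContinuousLinearMap.proj k : (K → ℝ) →L[ℝ] ℝ)) T)
    (hc : Φ.Z S.b - Φ.Z 0 = Ψ.Z S.b - Ψ.Z 0) :
    0 ≤ (∑ k, S.b k * (Ψ.lev k - Φ.lev k)) - om (Φ.Z S.b - Φ.Z 0) (Ψ.Z 0 - Φ.Z 0) / 2
        - (ψ S.b - ψ 0) / 2 + (φ S.b - φ 0) / 2 ∧
    ((∑ k, S.b k * (Ψ.lev k - Φ.lev k)) - om (Φ.Z S.b - Φ.Z 0) (Ψ.Z 0 - Φ.Z 0) / 2
        - (ψ S.b - ψ 0) / 2 + (φ S.b - φ 0) / 2 = 0 → Φ.Z 0 = Ψ.Z 0) := by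
  obtain ⟨hiso, hind⟩ := hIE J K S Φ
  set z1 : ℝ → PS J := fun t => Φ.Z (t • S.b) with hz1
  set c : PS J := Ψ.Z 0 - Φ.Z 0 with hcdef
  have hz10 : z1 0 = Φ.Z 0 := by simp [hz1]
  have hz11 : z1 1 = Φ.Z S.b := by simp [hz1]
  have hc1 : c = Ψ.Z S.b - Φ.Z S.b := by
    rw [hcdef]
    have : Ψ.Z S.b - Φ.Z S.b = (Ψ.Z 0 - Φ.Z 0) + ((Ψ.Z S.b - Ψ.Z 0) - (Φ.Z S.b - Φ.Z 0)) := by abel
    rw [this, ← hc]; abel
  have hline : ∀ t : ℝ, HasDerivAt (fun s : ℝ => s • S.b) S.b t := fun t => by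
    simpa using (hasDerivAt_id t).smul_const S.b
  have dz1 : ∀ t, HasDerivAt z1 (S.Xv S.b (z1 t)) t := fun t => FI_path Φ (hline t)
  have mz1 : ∀ t, z1 t ∈ Cone J := fun t => Φ.mem _
  -- the shifted y coordinates
  set y : ℝ → K → ℝ := fun t k => om (S.e k) (z1 t) + om (S.e k) c with hy
  set y' : ℝ → K → ℝ := fun t k => om (S.e k) (S.Xv S.b (z1 t)) with hy'
  have dyk : ∀ t k, HasDerivAt (fun s => y s k) (y' t k) t := by
    intro t k
    have h := (FI_om_deriv (hasDerivAt_const t (S.e k)) (dz1 t)).add_const (om (S.e k) c)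
    simpa [hy, hy'] using h
  have dy : ∀ t, HasDerivAt y (y' t) t := fun t => hasDerivAt_pi.mpr fun k => dyk t k
  have hy'0 : ∀ t k, 0 ≤ y' t k := by
    intro t k
    have : y' t k = ∑ m, S.b m * (- om (S.X m (z1 t)) (S.e k)) := by
      simp only [hy', Sys.Xv]
      rw [om_sum_right]
      refine Finset.sum_congr rfl fun m _ => ?_
      rw [om_smul_right, om_anti]
    rw [this]
    refine Finset.sum_nonneg fun m _ => mul_nonneg (S.b_nonneg m) ?_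
    have := Φ.neg (t • S.b) m k
    simp only [hz1]
    linarith
  have hmono : ∀ k, Monotone (fun s => y s k) := fun k =>
    monotone_of_deriv_nonneg (fun t => (dyk t k).differentiableAt) fun t => by
      rw [(dyk t k).deriv]; exact hy'0 t k
  have hy0 : ∀ k, y 0 k = om (S.e k) (Ψ.Z 0) := by
    intro k
    simp only [hy, hz10, hcdef]
    rw [← om_add_right]; congr 1; abel
  have hy1 : ∀ k, y 1 k = om (S.e k) (Ψ.Z S.b) := by
    intro k
    simp only [hy, hz11, hc1]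
    rw [← om_add_right]; congr 1; abel
  set U : Set ℝ := {t | ∀ k, |y t k| < Ψ.lev k} with hU
  have hUo : IsOpen U := by
    have : U = ⋂ k, {t | |y t k| < Ψ.lev k} := by ext t; simp [hU]
    rw [this]
    refine isOpen_iInter_of_finite fun k => ?_
    refine isOpen_lt ?_ continuous_const
    exact (continuous_iff_continuousAt.mpr fun t => (dyk t k).continuousAt).abs
  have hUI : Set.Icc (0 : ℝ) 1 ⊆ U := by
    intro t ht k
    have h0 := hmono k ht.1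
    have h1 := hmono k ht.2
    simp only [hy0, hy1] at h0 h1
    have hb0 := Ψ.box 0 k
    have hb1 := Ψ.box S.b k
    rw [abs_lt] at hb0 hb1 ⊢
    exact ⟨by linarith, by linarith⟩
  obtain ⟨Th, Th', hTh, hyTh⟩ := hYP J K S Ψ y y' U hUo (fun t _ => dy t) (fun t ht k => ht k)
  set zh : ℝ → PS J := fun t => Ψ.Z (Th t) with hzh
  have dzh : ∀ t ∈ U, HasDerivAt zh (S.Xv (Th' t) (zh t)) t := fun t ht => FI_path Ψ (hTh t ht)
  have h0U : (0 : ℝ) ∈ U := hUI ⟨le_refl _, zero_le_one⟩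
  have h1U : (1 : ℝ) ∈ U := hUI ⟨zero_le_one, le_refl _⟩
  have hTh0 : Th 0 = 0 := by
    refine (hYB J K S Ψ (y 0) h0U).unique (fun k => hyTh 0 h0U k) (fun k => ?_)
    rw [hy0]
  have hTh1 : Th 1 = S.b := by
    refine (hYB J K S Ψ (y 1) h1U).unique (fun k => hyTh 1 h1U k) (fun k => ?_)
    rw [hy1]
  -- the difference
  set ζ : ℝ → PS J := fun t => zh t - z1 t - c with hζ
  set ζ' : ℝ → PS J := fun t => S.Xv (Th' t) (zh t) - S.Xv S.b (z1 t) with hζ'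
  have dζ : ∀ t ∈ U, HasDerivAt ζ (ζ' t) t := fun t ht =>
    ((dzh t ht).sub (dz1 t)).sub_const c
  have hζe : ∀ t ∈ U, ∀ k, om (S.e k) (ζ t) = 0 := by
    intro t ht k
    simp only [hζ]
    rw [om_sub_right, om_sub_right]
    have := hyTh t ht k
    simp only [hzh]
    rw [this]
    simp only [hy]; ring
  have hζ'e : ∀ t ∈ U, ∀ k, om (S.e k) (ζ' t) = 0 := by
    intro t ht k
    have h1 : HasDerivAt (fun s => om (S.e k) (ζ s)) (om (S.e k) (ζ' t)) t := by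
      have h := FI_om_deriv (hasDerivAt_const t (S.e k)) (dζ t ht)
      simpa using h
    have h2 : (fun s => om (S.e k) (ζ s)) =ᶠ[𝓝 t] fun _ => (0 : ℝ) := by
      filter_upwards [hUo.mem_nhds ht] with s hs using hζe s hs k
    exact h1.unique ((hasDerivAt_const t (0 : ℝ)).congr_of_eventuallyEq h2)
  have hζζ : ∀ t ∈ U, om (ζ' t) (ζ t) = 0 := by
    intro t ht
    obtain ⟨a, ha⟩ := hLG J K S.e S.card hiso hind (ζ t) (hζe t ht)
    rw [ha, om_sum_right]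
    refine Finset.sum_eq_zero fun k _ => ?_
    rw [om_smul_right, om_anti, hζ'e t ht k]; simp
  -- the function G
  set Q : ℝ := ∑ k, S.b k * (Ψ.lev k - Φ.lev k) with hQ
  set G : ℝ → ℝ := fun t => t * Q - om (z1 t) c / 2 - ψ (Th t) / 2 + φ (t • S.b) / 2
    + om (ζ t) (z1 t + c) / 2 with hG
  have dG : ∀ t ∈ U, HasDerivAt G (Q - om (S.Xv S.b (z1 t)) (zh t - z1 t)) t := by
    intro t ht
    have a1 : HasDerivAt (fun s : ℝ => s * Q) Q t := by simpa using (hasDerivAt_id t).mul_const Q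
    have a2 : HasDerivAt (fun s => om (z1 s) c) (om (S.Xv S.b (z1 t)) c) t := by
      have h := FI_om_deriv (dz1 t) (hasDerivAt_const t c)
      simpa using h
    have a3 := FI_prim Ψ hψ (hTh t ht)
    have a4 := FI_prim Φ hφ (hline t)
    have a5 := FI_om_deriv (dζ t ht) ((dz1 t).add_const c)
    have h := (((a1.sub (a2.div_const 2)).sub (a3.div_const 2)).add (a4.div_const 2)).add
      (a5.div_const 2)
    refine h.congr_deriv ?_
    have e1 : zh t = z1 t + c + ζ t := by simp only [hζ]; abel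
    have e2 : S.Xv (Th' t) (zh t) = S.Xv S.b (z1 t) + ζ' t := by simp only [hζ']; abel
    have e3 : om (S.Xv (Th' t) (Ψ.Z (Th t))) (Ψ.Z (Th t))
        = om (S.Xv S.b (z1 t)) (z1 t) + om (S.Xv S.b (z1 t)) c + om (S.Xv S.b (z1 t)) (ζ t)
          + om (ζ' t) (z1 t + c) := by
      have : om (S.Xv (Th' t) (Ψ.Z (Th t))) (Ψ.Z (Th t)) = om (S.Xv (Th' t) (zh t)) (zh t) := rfl
      rw [this, e2]
      conv_lhs => rw [e1]
      rw [om_add_left, om_add_right, om_add_right, om_add_right, hζζ t ht]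
      ring
    have e4 : om (ζ t) (S.Xv S.b (z1 t)) = - om (S.Xv S.b (z1 t)) (ζ t) := om_anti _ _
    have e5 : om (S.Xv S.b (z1 t)) (zh t - z1 t)
        = om (S.Xv S.b (z1 t)) c + om (S.Xv S.b (z1 t)) (ζ t) := by
      rw [← om_add_right]; congr 1; rw [e1]; abel
    have e6 : om (S.Xv S.b (Φ.Z (t • S.b))) (Φ.Z (t • S.b)) = om (S.Xv S.b (z1 t)) (z1 t) := rfl
    rw [e3, e5, e6, e4]
    ring
  have hsc : ∀ t ∈ U, 0 ≤ Q - om (S.Xv S.b (z1 t)) (zh t - z1 t) ∧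
      (Q - om (S.Xv S.b (z1 t)) (zh t - z1 t) = 0 → zh t = z1 t) := by
    intro t ht
    obtain ⟨h1, h2⟩ := hSC J K S (z1 t) (zh t) (mz1 t) (Ψ.mem _)
    have l1 : ∀ k, S.H k (z1 t) = Φ.lev k := fun k => Φ.level _ k
    have l2 : ∀ k, S.H k (zh t) = Ψ.lev k := fun k => Ψ.level _ k
    simp only [l1, l2] at h1 h2
    have hQ' : Q = ∑ k, S.b k * Ψ.lev k - ∑ k, S.b k * Φ.lev k := by
      rw [hQ, ← Finset.sum_sub_distrib]
      exact Finset.sum_congr rfl fun k _ => by ring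
    exact ⟨by rw [hQ']; linarith, fun h => h2 (by rw [hQ'] at h; linarith)⟩
  have hG0 : G 0 = - om (Φ.Z 0) c / 2 - ψ 0 / 2 + φ 0 / 2 := by
    have : ζ 0 = 0 := by simp only [hζ, hzh, hTh0, hz10, hcdef]; abel
    simp only [hG, this, hTh0, hz10, om_zero_left, zero_smul]; ring
  have hG1 : G 1 = Q - om (Φ.Z S.b) c / 2 - ψ S.b / 2 + φ S.b / 2 := by
    have : ζ 1 = 0 := by simp only [hζ, hzh, hTh1, hz11, hc1]; abel
    simp only [hG, this, hTh1, hz11, om_zero_left, one_smul]; ring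
  have hGm : MonotoneOn G (Set.Icc 0 1) := by
    refine monotoneOn_of_deriv_nonneg (convex_Icc 0 1)
      (fun t ht => (dG t (hUI ht)).continuousAt.continuousWithinAt)
      (fun t ht => ?_) (fun t ht => ?_)
    · exact (dG t (hUI (interior_subset ht))).differentiableAt.differentiableWithinAt
    · rw [(dG t (hUI (interior_subset ht))).deriv]
      exact (hsc t (hUI (interior_subset ht))).1
  have hE : Q - om (Φ.Z S.b - Φ.Z 0) c / 2 - (ψ S.b - ψ 0) / 2 + (φ S.b - φ 0) / 2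
      = G 1 - G 0 := by
    rw [hG0, hG1, om_sub_left]; ring
  rw [hE]
  have h01 : G 0 ≤ G 1 := hGm ⟨le_refl _, zero_le_one⟩ ⟨zero_le_one, le_refl _⟩ zero_le_one
  refine ⟨by linarith, fun heq => ?_⟩
  -- G is constant on [0,1]
  have hconst : ∀ t ∈ Set.Icc (0 : ℝ) 1, G t = G 0 := by
    intro t ht
    have a := hGm ⟨le_refl _, zero_le_one⟩ ht ht.1
    have b := hGm ht ⟨zero_le_one, le_refl _⟩ ht.2
    linarith
  have hd0 := (dG 0 h0U).hasDerivWithinAt (s := Set.Icc (0 : ℝ) 1)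
  have hd1 : HasDerivWithinAt G 0 (Set.Icc (0 : ℝ) 1) 0 :=
    (hasDerivWithinAt_const (0 : ℝ) (Set.Icc (0 : ℝ) 1) (G 0)).congr hconst rfl
  have hud : UniqueDiffWithinAt ℝ (Set.Icc (0 : ℝ) 1) 0 :=
    uniqueDiffOn_Icc zero_lt_one 0 ⟨le_refl _, zero_le_one⟩
  have hz := hud.eq_deriv _ hd0 hd1
  have hfin := (hsc 0 h0U).2 hz
  have : zh 0 = Ψ.Z 0 := by simp only [hzh, hTh0]
  rw [this, hz10] at hfin
  exact hfin.symm

theorem FI_of (hIE : IE_stmt) (hLG : LG_stmt) (hSC : SC_stmt) (hYB : YB_stmt) (hYP : YP_stmt)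
    (hPR : PR_stmt) : FI_stmt := by
  intro J K _ _ _ _ S Φ Ψ hc
  obtain ⟨φ, hφ⟩ := hPR J K S Φ
  obtain ⟨ψ, hψ⟩ := hPR J K S Ψ
  obtain ⟨h1, h1'⟩ := FI_half hIE hLG hSC hYB hYP S Φ Ψ φ ψ hφ hψ hc
  obtain ⟨h2, -⟩ := FI_half hIE hLG hSC hYB hYP S Ψ Φ ψ φ hψ hφ hc.symm
  refine h1' ?_
  have e1 : (∑ k, S.b k * (Φ.lev k - Ψ.lev k)) = -(∑ k, S.b k * (Ψ.lev k - Φ.lev k)) := by
    rw [← Finset.sum_neg_distrib]
    exact Finset.sum_congr rfl fun k _ => by ring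
  have e2 : om (Ψ.Z S.b - Ψ.Z 0) (Φ.Z 0 - Ψ.Z 0) = - om (Φ.Z S.b - Φ.Z 0) (Ψ.Z 0 - Φ.Z 0) := by
    rw [← hc, ← om_neg_right, neg_sub]
  rw [e1, e2] at h2
  linarith

end Pool.Agent.helper73.AD
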